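import Pool.Agent.Helper31.BC.Stmts
import Pool.Agent.Helper31.Grid.Conn

set_option autoImplicit false

/-! Module CON2: connectedness of the used edges for choices of docked subcolumns which need not
be true literals (port of `Pool.Agent.Helper31.Grid.Top` and `Conn`). -/

namespace Pool.Agent.Helper31.BC

open Pool.Agent.Helper52.Grid
open Pool.Agent.Helper31.Grid

variable {s : List Sub} {M : ℕ} {a ch : ℕ → Bool} {S : Pt → Prop}

theorem con2_ring_const (hS : Cl s M a ch S) (hc : PChoice s ch) {k0 n : ℕ} (hcl : IsCl s k0 n) :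
    ∃ l, k0 < l ∧ l ≤ k0 + n ∧ ch l = true ∧
      (∀ x, 5 + 4 * k0 ≤ x → x ≤ 8 + 4 * (k0 + n) →
        (S (x, 1) ↔ S (6 + 4 * l, 2)) ∧ (S (x, 2) ↔ S (6 + 4 * l, 2))) := by
  obtain ⟨l, ⟨hl1, hl2, hl3⟩, huniq⟩ := hc.one k0 n hcl.start hcl.lt hcl.mid hcl.fin
  refine ⟨l, hl1, hl2, hl3, ?_⟩
  have hlen : k0 + n < s.length := by
    by_contra hcon
    rcases Nat.eq_zero_or_pos n with h | h
    · subst h; exact hcon hcl.lt
    · exact hcl.mid (k0 + n) (by omega) (le_refl _) (sg_none (by omega))
  have hnone : ∀ k, k0 ≤ k → k < k0 + n → sg s (k + 1) ≠ none := fun k h1 h2 =>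
    hcl.mid (k + 1) (by omega) (by omega)
  -- line 1
  have L1 : ∀ x, 5 + 4 * k0 ≤ x → x < 8 + 4 * (k0 + n) → (S (x, 1) ↔ S (x + 1, 1)) := by
    intro x hx1 hx2
    have e : x = 5 + 4 * ((x - 5) / 4) + (x - 5) % 4 := by omega
    have hk1 : k0 ≤ (x - 5) / 4 := by omega
    have hk2 : (x - 5) / 4 ≤ k0 + n := by omega
    have hj : (x - 5) % 4 < 4 := by omega
    have hjn : (x - 5) % 4 = 3 → (x - 5) / 4 < k0 + n := by omega
    rw [e]
    generalize (x - 5) / 4 = k at *
    generalize (x - 5) % 4 = j at *
    refine hS.top_h (by omega) hj (by omega) (Or.inl ?_)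
    rw [hT_cell (by omega) hj, if_neg (by omega), if_neg (by omega), if_neg, if_neg (by omega)]
    rintro ⟨h1, h2⟩
    exact hnone k hk1 (hjn h1) h2
  -- line 2, outside the chosen dock
  have L2 : ∀ x, 5 + 4 * k0 ≤ x → x < 8 + 4 * (k0 + n) → x ≠ 6 + 4 * l →
      (S (x, 2) ↔ S (x + 1, 2)) := by
    intro x hx1 hx2 hxl
    have e : x = 5 + 4 * ((x - 5) / 4) + (x - 5) % 4 := by omega
    have hk1 : k0 ≤ (x - 5) / 4 := by omega
    have hk2 : (x - 5) / 4 ≤ k0 + n := by omega
    have hj : (x - 5) % 4 < 4 := by omega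
    have hjn : (x - 5) % 4 = 3 → (x - 5) / 4 < k0 + n := by omega
    have hjl : (x - 5) % 4 = 1 → (x - 5) / 4 ≠ l := by omega
    rw [e]
    generalize (x - 5) / 4 = k at *
    generalize (x - 5) % 4 = j at *
    have hT' : hT s (5 + 4 * k + j) 2 = if (j = 1 ∧ dock (sg s k) = true) then 2 else 0 := by
      rw [hT_cell (by omega) hj, if_neg (by omega), if_neg (by omega), if_neg]
      · simp
      · rintro ⟨h1, h2⟩
        exact hnone k hk1 (hjn h1) h2
    by_cases hd : j = 1 ∧ dock (sg s k) = true
    · refine hS.top_h (by omega) hj (by omega) (Or.inr ⟨by rw [hT', if_pos hd], rfl, ?_⟩)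
      by_contra hne
      have hck : ch k = true := by simpa using hne
      have hkk : k0 < k := by
        rcases Nat.lt_or_ge k0 k with h | h
        · exact h
        · have : k = k0 := by omega
          subst this
          rw [hcl.start] at hd
          simp [dock] at hd
      exact hjl hd.1 (huniq k hkk hk2 hck)
    · exact hS.top_h (by omega) hj (by omega) (Or.inl (by rw [hT', if_neg hd]))
  have V1 : S (5 + 4 * k0, 1) ↔ S (5 + 4 * k0, 2) := by
    refine hS.top_v (j := 0) (k := k0) hcl.lt (by omega) (by omega) (Or.inl ?_)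
    rw [vT_cell hcl.lt (by omega), if_neg (by omega), if_pos rfl, if_pos ⟨rfl, hcl.start⟩]
  have V2 : S (8 + 4 * (k0 + n), 1) ↔ S (8 + 4 * (k0 + n), 2) := by
    have e : 8 + 4 * (k0 + n) = 5 + 4 * (k0 + n) + 3 := by omega
    rw [e]
    refine hS.top_v (j := 3) (k := k0 + n) hlen (by omega) (by omega) (Or.inl ?_)
    rw [vT_cell hlen (by omega), if_neg (by omega), if_pos rfl, if_neg (by omega),
      if_pos ⟨rfl, hcl.fin⟩]
  -- line 1 constant
  have C1 : ∀ x, 5 + 4 * k0 ≤ x → x ≤ 8 + 4 * (k0 + n) → (S (x, 1) ↔ S (5 + 4 * k0, 1)) := by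
    intro x hx
    induction x, hx using Nat.le_induction with
    | base => intro _; exact Iff.rfl
    | succ x hx ih =>
      intro h
      exact (L1 x hx (by omega)).symm.trans (ih (by omega))
  have C2 : ∀ x, 5 + 4 * k0 ≤ x → x ≤ 6 + 4 * l → (S (x, 2) ↔ S (5 + 4 * k0, 2)) := by
    intro x hx
    induction x, hx using Nat.le_induction with
    | base => intro _; exact Iff.rfl
    | succ x hx ih =>
      intro h
      exact (L2 x hx (by omega) (by omega)).symm.trans (ih (by omega))
  have C3 : ∀ x, 7 + 4 * l ≤ x → x ≤ 8 + 4 * (k0 + n) → (S (x, 2) ↔ S (7 + 4 * l, 2)) := by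
    intro x hx
    induction x, hx using Nat.le_induction with
    | base => intro _; exact Iff.rfl
    | succ x hx ih =>
      intro h
      exact (L2 x (by omega) (by omega) (by omega)).symm.trans (ih (by omega))
  have A := C2 (6 + 4 * l) (by omega) (le_refl _)
  have B := C3 (8 + 4 * (k0 + n)) (by omega) (le_refl _)
  have D := C1 (8 + 4 * (k0 + n)) (by omega) (le_refl _)
  -- everything in terms of `S (6 + 4 l, 2)`
  have E1 : S (5 + 4 * k0, 1) ↔ S (6 + 4 * l, 2) := V1.trans A.symm
  have E2 : S (7 + 4 * l, 2) ↔ S (6 + 4 * l, 2) := B.symm.trans (V2.symm.trans (D.trans E1))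
  intro x hx1 hx2
  refine ⟨(C1 x hx1 hx2).trans E1, ?_⟩
  rcases Nat.lt_or_ge x (7 + 4 * l) with h | h
  · exact (C2 x hx1 (by omega)).trans A.symm
  · exact (C3 x h hx2).trans E2

theorem con2_top_step (hS : Cl s M a ch S) (hc : PChoice s ch)
    (h0 : 0 < s.length → sg s 0 = none) {k j : ℕ} (hk : k < s.length) (hj : j < 4) :
    S (5 + 4 * k + j, 3) ↔ S (5 + 4 * k + j + 1, 3) := by
  by_cases hd : j = 1 ∧ dock (sg s k) = true
  · obtain ⟨rfl, hd⟩ := hd
    cases hch : ch k
    · -- through the cluster of row `0`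
      have v1 : S (5 + 4 * k + 1, 3) ↔ S (5 + 4 * k + 1, 4) := by
        refine hS.top_v hk (by omega) (by omega) (Or.inr (Or.inr ⟨?_, rfl, hch⟩))
        rw [vT_cell hk (by omega), if_neg (by omega), if_neg (by omega),
          if_pos ⟨Or.inl rfl, hd⟩]
      have v2 : S (5 + 4 * k + 2, 3) ↔ S (5 + 4 * k + 2, 4) := by
        refine hS.top_v hk (by omega) (by omega) (Or.inr (Or.inr ⟨?_, rfl, hch⟩))
        rw [vT_cell hk (by omega), if_neg (by omega), if_neg (by omega),
          if_pos ⟨Or.inr rfl, hd⟩]
      have h : Q S k 1 0 0 ↔ Q S k 2 0 0 := by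
        obtain ⟨v, hv⟩ := dock_iff.1 hd
        rcases kind_docked (v := v) (i := 0) (by omega) with h | h
        · rw [← hv] at h
          exact hS.qh' hk (by omega) h rfl hch 1 0 (by omega) (by omega) rfl
        · rw [← hv] at h
          exact hS.qh' hk (by omega) h rfl hch 1 0 (by omega) (by omega) rfl
      exact (v1.trans h).trans v2.symm
    · -- through the ring
      have v1 : S (5 + 4 * k + 1, 2) ↔ S (5 + 4 * k + 1, 3) := by
        refine hS.top_v hk (by omega) (by omega) (Or.inr (Or.inl ⟨?_, rfl, hch⟩))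
        rw [vT_cell hk (by omega), if_neg (by omega), if_neg (by omega),
          if_pos ⟨Or.inl rfl, hd⟩]
      have v2 : S (5 + 4 * k + 2, 2) ↔ S (5 + 4 * k + 2, 3) := by
        refine hS.top_v hk (by omega) (by omega) (Or.inr (Or.inl ⟨?_, rfl, hch⟩))
        rw [vT_cell hk (by omega), if_neg (by omega), if_neg (by omega),
          if_pos ⟨Or.inr rfl, hd⟩]
      obtain ⟨k0, n, hcl, hk1, hk2⟩ := exists_clause h0 hk
      obtain ⟨l, hl1, hl2, hl3, hr⟩ := con2_ring_const hS hc hcl
      have r1 := (hr (5 + 4 * k + 1) (by omega) (by omega)).2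
      have r2 := (hr (5 + 4 * k + 2) (by omega) (by omega)).2
      exact (v1.symm.trans (r1.trans r2.symm)).trans v2
  · refine hS.top_h hk hj (by omega) (Or.inl ?_)
    rw [hT_cell hk hj, if_pos rfl, if_neg hd]

theorem con2_top_T (hS : Cl s M a ch S) (hc : PChoice s ch)
    (h0 : 0 < s.length → sg s 0 = none) : ∀ x, 1 ≤ x → x ≤ 7 + 4 * s.length →
    (S (x, 3) ↔ S (1, 3)) := by
  intro x hx
  induction x, hx using Nat.le_induction with
  | base => intro _; exact Iff.rfl
  | succ x hx ih =>
    intro h
    refine Iff.trans (Iff.symm ?_) (ih (by omega))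
    rcases Nat.lt_or_ge x 5 with h5 | h5
    · refine hS.h _ _ ((hUse_top (by omega)).trans ?_)
      rw [hT, if_pos h5, if_pos ⟨rfl, hx⟩]; rfl
    · rcases Nat.lt_or_ge x (5 + 4 * s.length) with h6 | h6
      · have e : x = 5 + 4 * ((x - 5) / 4) + (x - 5) % 4 := by omega
        rw [e]
        exact con2_top_step hS hc h0 (by omega) (by omega)
      · refine hS.h _ _ ((hUse_top (by omega)).trans ?_)
        rw [hT, if_neg (by omega), if_neg (by omega), if_pos ⟨rfl, by omega⟩]; rfl

theorem con2_ring_T (hS : Cl s M a ch S) (hc : PChoice s ch)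
    (h0 : 0 < s.length → sg s 0 = none) {k j : ℕ} (hk : k < s.length) (hj : j < 4) :
    (S (5 + 4 * k + j, 1) ↔ S (1, 3)) ∧ (S (5 + 4 * k + j, 2) ↔ S (1, 3)) := by
  obtain ⟨k0, n, hcl, hk1, hk2⟩ := exists_clause h0 hk
  obtain ⟨l, hl1, hl2, hl3, hr⟩ := con2_ring_const hS hc hcl
  have hls : l < s.length := by
    by_contra hcon
    exact hcl.mid l hl1 hl2 (sg_none (by omega))
  obtain ⟨i, hi⟩ := hc.dk l hl3
  have v1 : S (5 + 4 * l + 1, 2) ↔ S (5 + 4 * l + 1, 3) := by
    refine hS.top_v hls (by omega) (by omega) (Or.inr (Or.inl ⟨?_, rfl, hl3⟩))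
    rw [vT_cell hls (by omega), if_neg (by omega), if_neg (by omega),
      if_pos ⟨Or.inl rfl, dock_iff.2 ⟨i, hi⟩⟩]
  have t := con2_top_T hS hc h0 (5 + 4 * l + 1) (by omega) (by omega)
  have e : 6 + 4 * l = 5 + 4 * l + 1 := by omega
  have r := hr (5 + 4 * k + j) (by omega) (by omega)
  rw [e] at r
  exact ⟨r.1.trans (v1.trans t), r.2.trans (v1.trans t)⟩

theorem con2_cluster0 (hS : Cl s M a ch S) (hc : PChoice s ch)
    (hrow : ∀ k i d, sg s k = some (i, d) → i < 2 * M + 1)
    (h0 : 0 < s.length → sg s 0 = none)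
    {k i : ℕ} (hk : k < s.length) (hi : i < 2 * M + 1)
    (hkd : kind (sg s k) i = .cross ∨ kind (sg s k) i = .dblk) : Q S k 1 i 0 ↔ S (1, 3) := by
  obtain ⟨v, hv, hiv⟩ : ∃ v, sg s k = some (v, true) ∧ i ≤ v := by
    rcases hkd with h | h
    · obtain ⟨v, h1, h2⟩ := kind_cross h
      exact ⟨v, h1, h2.le⟩
    · exact ⟨i, kind_dblk h, le_refl _⟩
  cases hch : ch k
  · rcases Nat.eq_zero_or_pos i with h | h
    · subst h
      have v1 : S (5 + 4 * k + 1, 3) ↔ S (5 + 4 * k + 1, 4) := by
        refine hS.top_v hk (by omega) (by omega) (Or.inr (Or.inr ⟨?_, rfl, hch⟩))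
        rw [vT_cell hk (by omega), if_neg (by omega), if_neg (by omega),
          if_pos ⟨Or.inl rfl, dock_iff.2 ⟨v, hv⟩⟩]
      exact v1.symm.trans (con2_top_T hS hc h0 _ (by omega) (by omega))
    · obtain ⟨i', rfl⟩ : ∃ i', i = i' + 1 := ⟨i - 1, by omega⟩
      have hkc : kind (sg s k) i' = .cross := by
        rw [hv]; exact kind_cross_of (by omega)
      have e := hS.qv' hk (by omega) hkc rfl hch 1 5 (by omega) (by omega) rfl
      rw [Q6] at e
      exact e.symm.trans (cross_all hS hrow hk (by omega) hkc 1 5 (by omega) (by omega))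
  · have e : Q S k 1 i 0 ↔ Q S k 1 i 1 := by
      rcases hkd with h | h
      · exact hS.qv' hk hi h rfl hch 1 0 (by omega) (by omega) rfl
      · exact hS.qv' hk hi h rfl hch 1 0 (by omega) (by omega) rfl
    exact e.trans (dock_pt hS hrow hk hi hkd)

theorem con2_cell_T (hS : Cl s M a ch S) (hc : PChoice s ch)
    (hrow : ∀ k i d, sg s k = some (i, d) → i < 2 * M + 1)
    (h0 : 0 < s.length → sg s 0 = none)
    {k i : ℕ} (hk : k < s.length) (hi : i < 2 * M + 1) (j r : ℕ) (hj : j < 4) (hr : r < 6)
    (h : hCell (kind (sg s k) i) r j = 0 ∨ vCell (kind (sg s k) i) r j = 0) :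
    Q S k j i r ↔ S (1, 3) := by
  obtain ⟨t1, t3, t5⟩ := rows_T hS hrow hi hk.le
  cases hkd : kind (sg s k) i
  · -- plain
    rw [hkd] at h
    have hr' : r = 1 ∨ r = 3 ∨ r = 5 := by
      interval_cases r <;> interval_cases j <;>
        first
        | exact absurd h (by decide)
        | omega
    have t : Q S k 0 i r ↔ S (1, 3) := by
      rcases hr' with rfl | rfl | rfl
      · exact t1
      · exact t3
      · exact t5
    obtain ⟨e1, e2, e3, e4⟩ := strand_plain hS hk hi hkd r hr'
    interval_cases j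
    · exact t
    · exact e1.trans t
    · exact e2.trans t
    · exact e3.trans t
  · -- cross
    rw [hkd] at h
    by_cases hr' : r = 1 ∨ r = 3 ∨ r = 5
    · exact cross_all hS hrow hk hi hkd j r hj hr'
    · have hj1 : j = 1 := by
        have hr'' : r = 0 ∨ r = 2 ∨ r = 4 := by omega
        rcases hr'' with rfl | rfl | rfl <;> interval_cases j <;>
          first
          | exact absurd h (by decide)
          | rfl
      subst hj1
      have hr'' : r = 0 ∨ r = 2 ∨ r = 4 := by omega
      rcases hr'' with rfl | rfl | rfl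
      · exact con2_cluster0 hS hc hrow h0 hk hi (Or.inl hkd)
      · cases hch : ch k
        · have e := hS.qv' hk hi hkd rfl hch 1 1 (by omega) (by omega) rfl
          exact e.symm.trans (cross_all hS hrow hk hi hkd 1 1 (by omega) (by omega))
        · have e := hS.qv' hk hi hkd rfl hch 1 2 (by omega) (by omega) rfl
          exact e.trans (cross_all hS hrow hk hi hkd 1 3 (by omega) (by omega))
      · cases hch : ch k
        · have e := hS.qv' hk hi hkd rfl hch 1 3 (by omega) (by omega) rfl
          exact e.symm.trans (cross_all hS hrow hk hi hkd 1 3 (by omega) (by omega))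
        · have e := hS.qv' hk hi hkd rfl hch 1 4 (by omega) (by omega) rfl
          exact e.trans (cross_all hS hrow hk hi hkd 1 5 (by omega) (by omega))
  · rw [hkd] at h
    exact block_all hS hrow hk hi (Or.inl hkd) j r hj hr h
  · rw [hkd] at h
    by_cases h01 : r = 0 ∧ j = 1
    · obtain ⟨rfl, rfl⟩ := h01
      exact con2_cluster0 hS hc hrow h0 hk hi (Or.inr hkd)
    · refine block_all hS hrow hk hi (Or.inr hkd) j r hj hr ?_
      revert h h01
      interval_cases r <;> interval_cases j <;> decide

theorem con2_right_T (hS : Cl s M a ch S) (hc : PChoice s ch)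
    (hrow : ∀ k i d, sg s k = some (i, d) → i < 2 * M + 1)
    (h0 : 0 < s.length → sg s 0 = none)
    {i : ℕ} (hi : i < 2 * M + 1) (x r : ℕ) (hr : r < 6)
    (h : hR r x = 0 ∨ vR i r x = 0) :
    S (5 + 4 * s.length + x, 4 + 6 * i + r) ↔ S (1, 3) := by
  obtain ⟨t1, t3, t5⟩ := rows_T hS hrow hi (le_refl _)
  obtain ⟨u1, u3, u5⟩ := rows_T hS hrow hi (Nat.zero_le _)
  have R := right_end hS hi
  have w := right_w hS hrow hi
  rcases Nat.lt_or_ge x 3 with hx | hx
  · interval_cases x
    · interval_cases r
      · exact absurd h (by simp [hR, vR])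
      · exact t1
      · exact absurd h (by simp [hR, vR])
      · exact t3
      · exact R.p4.trans t5
      · exact t5
    · interval_cases r
      · exact absurd h (by simp [hR, vR])
      · exact R.p1.trans t1
      · exact R.p2.trans t1
      · exact R.p3.trans t1
      · exact w.trans u1
      · exact absurd h (by simp [hR, vR])
    · have h1 : hR r 2 = 4 := by
        interval_cases r <;> rfl
      rw [h1] at h
      have h2 : vR i r 2 = 0 := by
        rcases h with h | h
        · omega
        · exact h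
      simp only [vR] at h2
      split_ifs at h2 with g1 g2 g3
      · -- even row, upper part
        rcases Nat.eq_zero_or_pos i with hi0 | hi0
        · subst hi0
          have A : ∀ r, r ≤ 3 → (S (5 + 4 * s.length + 2, 4 + 6 * 0 + r) ↔ S (1, 3)) := by
            intro r
            induction r with
            | zero =>
              intro _
              have e : S (5 + 4 * s.length + 2, 3) ↔ S (5 + 4 * s.length + 2, 4) := by
                refine hS.v _ _ ((vUse_top (by omega)).trans ?_)
                rw [vT, if_neg (by omega), if_neg (by omega), if_pos ⟨rfl, by omega⟩]; rfl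
              exact e.symm.trans (con2_top_T hS hc h0 _ (by omega) (by omega))
            | succ r ih =>
              intro hr3
              refine Iff.trans (Iff.symm ?_) (ih (by omega))
              refine hS.v _ _ ((vUse_right hi (by omega)).trans ?_)
              have : vR 0 r 2 = 0 := by
                have h4 : r < 4 := by omega
                simp [vR, h4]
              rw [this]; rfl
          exact A r (by omega)
        · obtain ⟨i', rfl⟩ : ∃ i', i = i' + 1 := ⟨i - 1, by omega⟩
          have e : 4 + 6 * (i' + 1) + r = 4 + 6 * i' + (6 + r) := by omega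
          rw [e]
          have t1' := (rows_T hS hrow (show i' < 2 * M + 1 by omega) (Nat.zero_le _)).1
          exact ((row_next hS hrow hi).2.2 (by omega) (6 + r) (by omega) (by omega)).trans t1'
      · have hiM : i + 1 < 2 * M + 1 := by omega
        exact ((row_next hS hrow hiM).2.2 (by omega) r (by omega) (by omega)).trans u1
  · exfalso
    have h1 : hR r x = 4 := by
      obtain ⟨x', rfl⟩ : ∃ x', x = x' + 3 := ⟨x - 3, by omega⟩
      interval_cases r <;> rfl
    have h2 : vR i r x = 4 := by
      obtain ⟨x', rfl⟩ : ∃ x', x = x' + 3 := ⟨x - 3, by omega⟩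
      rfl
    rw [h1, h2] at h
    omega

theorem con2_H_T (hS : Cl s M a ch S) (hc : PChoice s ch)
    (hrow : ∀ k i d, sg s k = some (i, d) → i < 2 * M + 1)
    (h0 : 0 < s.length → sg s 0 = none) (x y : ℕ)
    (h : hC s M x y = 0 ∨ vC s M x y = 0) : S (x, y) ↔ S (1, 3) := by
  rcases Nat.lt_or_ge y 4 with hy | hy
  · -- above the rows
    rw [hC, vC, if_pos hy, if_pos hy] at h
    rcases Nat.lt_or_ge x 5 with hx | hx
    · rw [hT, vT, if_pos hx, if_pos hx] at h
      have h3 : y = 3 ∧ 1 ≤ x := by
        by_contra hcon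
        rw [if_neg hcon, if_neg (by omega)] at h
        omega
      obtain ⟨rfl, hx1⟩ := h3
      exact con2_top_T hS hc h0 x hx1 (by omega)
    · rcases Nat.lt_or_ge x (5 + 4 * s.length) with hx2 | hx2
      · have e : x = 5 + 4 * ((x - 5) / 4) + (x - 5) % 4 := by omega
        have hk : (x - 5) / 4 < s.length := by omega
        have hj : (x - 5) % 4 < 4 := by omega
        rw [e] at h ⊢
        generalize (x - 5) / 4 = k at *
        generalize (x - 5) % 4 = j at *
        rw [hT_cell hk hj, vT_cell hk hj] at h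
        interval_cases y
        · simp at h
        · exact (con2_ring_T hS hc h0 hk hj).1
        · exact (con2_ring_T hS hc h0 hk hj).2
        · exact con2_top_T hS hc h0 _ (by omega) (by omega)
      · have n5 : ¬ x < 5 := by omega
        have n6 : ¬ x < 5 + 4 * s.length := by omega
        rw [hT, vT, if_neg n5, if_neg n5, if_neg n6, if_neg n6] at h
        have h3 : y = 3 ∧ x ≤ 7 + 4 * s.length := by
          by_contra hcon
          rw [if_neg (by omega), if_neg (by omega)] at h
          omega
        obtain ⟨rfl, hx1⟩ := h3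
        exact con2_top_T hS hc h0 x (by omega) (by omega)
  · have ny : ¬ y < 4 := by omega
    rw [hC, vC, if_neg ny, if_neg ny] at h
    have e : y = 4 + 6 * ((y - 4) / 6) + (y - 4) % 6 := by omega
    have hr : (y - 4) % 6 < 6 := by omega
    by_cases hi : (y - 4) / 6 < 2 * M + 1
    · rw [if_pos hi, if_pos hi] at h
      rw [e]
      generalize (y - 4) / 6 = i at *
      generalize (y - 4) % 6 = r at *
      rcases Nat.lt_or_ge x 5 with hx | hx
      · rw [if_pos hx, if_pos hx] at h
        exact left_T hS hrow hi x r hx hr h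
      · have n5 : ¬ x < 5 := by omega
        rw [if_neg n5, if_neg n5] at h
        rcases Nat.lt_or_ge x (5 + 4 * s.length) with hx2 | hx2
        · rw [if_pos hx2, if_pos hx2] at h
          have e : x = 5 + 4 * ((x - 5) / 4) + (x - 5) % 4 := by omega
          have hk : (x - 5) / 4 < s.length := by omega
          have hj : (x - 5) % 4 < 4 := by omega
          rw [e]
          exact con2_cell_T hS hc hrow h0 hk hi _ r hj hr h
        · have n6 : ¬ x < 5 + 4 * s.length := by omega
          rw [if_neg n6, if_neg n6] at h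
          have e : x = 5 + 4 * s.length + (x - (5 + 4 * s.length)) := by omega
          rw [e]
          exact con2_right_T hS hc hrow h0 hi _ r hr h
    · rw [if_neg hi, if_neg hi] at h
      omega

/-- (CON2) connectedness, for choices which need not be true -/
theorem st_CON2 : ST_CON2 := by
  intro s M a ch hrow h0 hc S hh hv b hb
  have hS : Cl s M a ch S := ⟨hh, hv⟩
  obtain ⟨x, y⟩ := b
  rcases hb with h | h | h | h
  · exact con2_H_T hS hc hrow h0 x y (Or.inl h)
  · simp only at h
    rcases Nat.eq_zero_or_pos x with hx | hx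
    · subst hx
      rw [hC_zero] at h
      omega
    · obtain ⟨x', rfl⟩ : ∃ x', x = x' + 1 := ⟨x - 1, by omega⟩
      rw [Nat.add_sub_cancel] at h
      have e := hh x' y (by rw [hUse, if_pos h])
      exact e.symm.trans (con2_H_T hS hc hrow h0 x' y (Or.inl h))
  · exact con2_H_T hS hc hrow h0 x y (Or.inr h)
  · simp only at h
    rcases Nat.eq_zero_or_pos y with hy | hy
    · subst hy
      rw [vC_zero] at h
      omega
    · obtain ⟨y', rfl⟩ : ∃ y', y = y' + 1 := ⟨y - 1, by omega⟩
      rw [Nat.add_sub_cancel] at h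
      have e := hv x y' (by rw [vUse, if_pos h])
      exact e.symm.trans (con2_H_T hS hc hrow h0 x y' (Or.inr h))

end Pool.Agent.Helper31.BC
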