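import Pool.Agent.Helper31.BC.Stmts
import Pool.Agent.Helper58.Grid.Deg

set_option autoImplicit false

/-! Module DEG: the local conditions of the vectors `XH`, `XV`. -/

namespace Pool.Agent.Helper31.BC

open Pool.Agent.Helper52.Grid
open Pool.Agent.Helper58.Grid

variable {s : List Sub} {M : ℕ} {a ch : ℕ → Bool}

theorem deg_bad_elim {x y : ℕ} (h : isBad s a ch x y = true) :
    ∃ k i, x = 5 + 4 * k + 1 ∧ y = 4 + 6 * i + 1 ∧ sg s k = some (i, true) ∧ ch k = true ∧
      bst s a i k = false := by
  unfold isBad at h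
  simp only [Bool.and_eq_true, decide_eq_true_eq, Bool.not_eq_true'] at h
  obtain ⟨⟨⟨h1, h2, h3, h4, h5⟩, h6⟩, h7⟩ := h
  exact ⟨(x - 5) / 4, (y - 4) / 6, by omega, by omega, h5, h6, h7⟩

theorem deg_lt_of_sg {k : ℕ} {o : ℕ × Bool} (h : sg s k = some o) : k < s.length := by
  by_contra hcon
  unfold sg at h
  rw [List.getD_eq_default _ _ (by omega)] at h
  simp at h

theorem deg_hC_bad (hs : ∀ k i d, sg s k = some (i, d) → i < 2 * M + 1) {x y : ℕ}
    (h : isBad s a ch x y = true) : hC s M x y = 2 := by
  obtain ⟨k, i, rfl, rfl, h1, h2, h3⟩ := deg_bad_elim h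
  rw [hC_cell (deg_lt_of_sg h1) (hs k i true h1) (by norm_num) (by norm_num), h1]
  simp [kind, hCell]

theorem deg_bad_false {x y : ℕ}
    (h : ∀ k i, k < s.length → sg s k = some (i, true) → x = 5 + 4 * k + 1 → y = 4 + 6 * i + 1 →
      False) : isBad s a ch x y = false := by
  by_contra hcon
  rw [Bool.not_eq_false] at hcon
  obtain ⟨k, i, h1, h2, h3, _, _⟩ := deg_bad_elim hcon
  exact h k i (deg_lt_of_sg h3) h3 h1 h2

/-- the bad middle edge inside a cell -/
def degBad (κ : Kind) (b c : Bool) (r j : ℕ) : Bool :=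
  decide (j = 1 ∧ r = 1 ∧ κ = .dblk) && c && !b

theorem deg_kind {k i : ℕ} : kind (sg s k) i = .dblk ↔ sg s k = some (i, true) := by
  rcases h : sg s k with _ | ⟨v, b⟩
  · simp [kind]
  · rcases b with _ | _
    · simp only [kind]
      split_ifs <;> simp_all
    · simp only [kind]
      split_ifs with h1 h2
      · simp [h1]
      · simp only [reduceCtorEq, false_iff]
        intro h3
        simp only [Option.some.injEq, Prod.mk.injEq, and_true] at h3
        exact h1 h3.symm
      · simp only [reduceCtorEq, false_iff]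
        intro h3
        simp only [Option.some.injEq, Prod.mk.injEq, and_true] at h3
        exact h1 h3.symm

theorem deg_bad_cell {k i r j : ℕ} (hr : r < 6) (hj : j < 4) :
    isBad s a ch (5 + 4 * k + j) (4 + 6 * i + r) =
      degBad (kind (sg s k) i) (bst s a i k) (ch k) r j := by
  have h2 : (4 + 6 * i + r - 4) / 6 = i := by omega
  have h5 : (5 + 4 * k + j - 5) / 4 = k := by omega
  have h6 : (4 + 6 * i + r - 4) % 6 = r := by omega
  have h7 : (5 + 4 * k + j - 5) % 4 = j := by omega
  unfold isBad degBad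
  rw [h2, h5, h6, h7]
  congr 2
  rw [decide_eq_decide, deg_kind]
  constructor
  · rintro ⟨_, _, h1, h2, h3⟩
    exact ⟨h1, h2, h3⟩
  · rintro ⟨h1, h2, h3⟩
    exact ⟨by omega, by omega, h1, h2, h3⟩

/-- the bad edge to the left -/
def degBadW (κ : Kind) (b c : Bool) (r j : ℕ) : Bool := if j = 0 then false else degBad κ b c r (j - 1)

theorem deg_local_int (κ : Kind) (b c : Bool) (r : Fin 6) (j : Fin 4) :
    (hCell κ r j = 0 ∨ wC κ r j = 0 ∨ vCell κ r j = 0 ∨ nC κ r j = 0) →
    (hcell κ b c r j).toNat + (wU κ b c r j).toNat + (vcell κ b c r j).toNat +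
      (nU κ b c r j).toNat = 2 + (degBad κ b c r j).toNat + (degBadW κ b c r j).toNat := by
  revert r j
  cases κ <;> cases b <;> cases c <;> decide

theorem deg_ok_cell {k j i r : ℕ} (hk : k < s.length) (hj : j < 4) (hi : i < 2 * M + 1)
    (hr : r < 6) :
    (hC s M (5 + 4 * k + j) (4 + 6 * i + r) = 0 ∨ hC s M (5 + 4 * k + j - 1) (4 + 6 * i + r) = 0 ∨
      vC s M (5 + 4 * k + j) (4 + 6 * i + r) = 0 ∨
      vC s M (5 + 4 * k + j) (4 + 6 * i + r - 1) = 0) →
    (hUse s M a ch (5 + 4 * k + j) (4 + 6 * i + r)).toNat +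
      (hUse s M a ch (5 + 4 * k + j - 1) (4 + 6 * i + r)).toNat +
      (vUse s M a ch (5 + 4 * k + j) (4 + 6 * i + r)).toNat +
      (vUse s M a ch (5 + 4 * k + j) (4 + 6 * i + r - 1)).toNat =
    2 + (isBad s a ch (5 + 4 * k + j) (4 + 6 * i + r)).toNat +
      (isBad s a ch (5 + 4 * k + j - 1) (4 + 6 * i + r)).toNat := by
  intro h
  have e1 := hC_cell (s := s) hk hi hr hj
  have e2 : hC s M (5 + 4 * k + j - 1) (4 + 6 * i + r) = wC (kind (sg s k) i) r j := by
    unfold wC
    by_cases h1 : j = 0
    · rw [if_pos h1, h1, show 5 + 4 * k + 0 - 1 = 4 + 4 * k by omega, hC_west hk.le hi hr]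
    · rw [if_neg h1, ← hC_cell (s := s) hk hi hr (show j - 1 < 4 by omega)]
      congr 1
      omega
  have e3 := vC_cell (s := s) hk hi hr hj
  have e4 : vC s M (5 + 4 * k + j) (4 + 6 * i + r - 1) = nC (kind (sg s k) i) r j := by
    unfold nC
    by_cases h1 : r = 0
    · rw [if_pos h1, h1, show 4 + 6 * i + 0 - 1 = 3 + 6 * i by omega, vC_north hk hi hj]
    · rw [if_neg h1, ← vC_cell (s := s) hk hi (show r - 1 < 6 by omega) hj]
      congr 1
      omega
  have u1 := hUse_cell (s := s) (a := a) (ch := ch) hk hi hr hj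
  have u2 : hUse s M a ch (5 + 4 * k + j - 1) (4 + 6 * i + r) =
      wU (kind (sg s k) i) (bst s a i k) (ch k) r j := by
    unfold wU
    by_cases h1 : j = 0
    · rw [if_pos h1, h1, show 5 + 4 * k + 0 - 1 = 4 + 4 * k by omega, hUse_west hk.le hi hr]
    · rw [if_neg h1, ← hUse_cell (s := s) (a := a) (ch := ch) hk hi hr (show j - 1 < 4 by omega)]
      congr 1
      omega
  have u3 := vUse_cell (s := s) (a := a) (ch := ch) hk hi hr hj
  have u4 : vUse s M a ch (5 + 4 * k + j) (4 + 6 * i + r - 1) =
      nU (kind (sg s k) i) (bst s a i k) (ch k) r j := by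
    unfold nU
    by_cases h1 : r = 0
    · rw [if_pos h1, h1, show 4 + 6 * i + 0 - 1 = 3 + 6 * i by omega, vUse_north hk hi hj]
    · rw [if_neg h1, ← vUse_cell (s := s) (a := a) (ch := ch) hk hi (show r - 1 < 6 by omega) hj]
      congr 1
      omega
  have b1 := deg_bad_cell (s := s) (a := a) (ch := ch) (k := k) (i := i) hr hj
  have b2 : isBad s a ch (5 + 4 * k + j - 1) (4 + 6 * i + r) =
      degBadW (kind (sg s k) i) (bst s a i k) (ch k) r j := by
    unfold degBadW
    by_cases h1 : j = 0
    · rw [if_pos h1]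
      refine deg_bad_false ?_
      intro k' i' _ _ h3 _
      omega
    · rw [if_neg h1, ← deg_bad_cell (s := s) (a := a) (ch := ch) (k := k) (i := i) hr
        (show j - 1 < 4 by omega)]
      congr 1
      omega
  rw [e1, e2, e3, e4] at h
  rw [u1, u2, u3, u4, b1, b2]
  exact deg_local_int _ _ _ ⟨r, hr⟩ ⟨j, hj⟩ h

theorem deg_cast (p q r t : Bool) (u v : Bool)
    (h : p.toNat + q.toNat + r.toNat + t.toNat = 2 + u.toNat + v.toNat) :
    ((p.toNat : ℤ) - (u.toNat : ℤ)) + ((q.toNat : ℤ) - (v.toNat : ℤ)) + (r.toNat : ℤ) +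
      (t.toNat : ℤ) = 2 := by
  have := congrArg (fun n : ℕ => (n : ℤ)) h
  push_cast at this
  linarith

theorem st_DEG : ST_DEG := by
  intro s M a ch hs h0 hch
  have hX : ∀ x y, XH s M a ch x y ≠ 0 → Vert (hC s M) (vC s M) (x, y) ∧
      Vert (hC s M) (vC s M) (x + 1, y) := by
    intro x y h
    by_cases h1 : hC s M x y = 0
    · exact ⟨vert_h h1, vert_w h1⟩
    · by_cases h2 : hC s M x y = 2
      · exact hC_two h2
      · exfalso
        apply h
        have h3 : isBad s a ch x y = false := by
          by_contra hcon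
          rw [Bool.not_eq_false] at hcon
          exact h2 (deg_hC_bad hs hcon)
        have h4 : hUse s M a ch x y = false := by simp [hUse, h1, h2]
        unfold XH
        rw [h3, h4]
        rfl
  have hY : ∀ x y, XV s M a ch x y ≠ 0 → Vert (hC s M) (vC s M) (x, y) ∧
      Vert (hC s M) (vC s M) (x, y + 1) := by
    intro x y h
    by_cases h1 : vC s M x y = 0
    · exact ⟨vert_v h1, vert_n h1⟩
    · by_cases h2 : vC s M x y = 2
      · exact vC_two hs h2
      · exfalso
        apply h
        simp [XV, vUse, h1, h2]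
  refine ⟨?_, ?_, ?_, ?_, ?_, ?_, hX, hY, ?_⟩
  · intro x y h
    have h3 : isBad s a ch x y = false := by
      by_contra hcon
      rw [Bool.not_eq_false] at hcon
      rw [deg_hC_bad hs hcon] at h
      omega
    unfold XH
    rw [h3]
    simp [hUse, h]
  · intro x y h1 h2
    have h3 : isBad s a ch x y = false := by
      by_contra hcon
      rw [Bool.not_eq_false] at hcon
      exact h2 (deg_hC_bad hs hcon)
    unfold XH
    rw [h3]
    simp [hUse, h1, h2]
  · intro x y h
    simp [XV, vUse, h]
  · intro x y h1 h2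
    simp [XV, vUse, h1, h2]
  · intro x y
    unfold XH
    have h1 : (hUse s M a ch x y).toNat ≤ 1 := Bool.toNat_le _
    omega
  · intro x y
    unfold XV
    have h1 : (vUse s M a ch x y).toNat ≤ 1 := Bool.toNat_le _
    omega
  · intro x y hv
    unfold XH XV
    refine deg_cast _ _ _ _ _ _ ?_
    rcases pos_y M (y + 1) with hy | ⟨i, r, hi, hr, hy⟩ | hy
    · have b1 : ∀ x', isBad s a ch x' (y + 1) = false := by
        intro x'
        refine deg_bad_false ?_
        intro k i _ _ _ h2
        omega
      rw [b1, b1]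
      have key : Ok s M a ch (x + 1) (y + 1) (x + 1 - 1) (y + 1 - 1) := by
        rcases pos_x s (x + 1) with hx | ⟨k, j, hk, hj, hx⟩ | ⟨j, hx⟩
        · exact ok_top_left hx (by omega) hy (by omega)
        · rw [hx]; exact ok_top_cell h0 hk hj hy (by omega)
        · rw [hx]; exact ok_top_right h0 hy (by omega)
      exact key hv
    · rcases pos_x s (x + 1) with hx | ⟨k, j, hk, hj, hx⟩ | ⟨j, hx⟩
      · have b1 : isBad s a ch (x + 1) (y + 1) = false := by
          refine deg_bad_false ?_
          intro k i _ _ h2 _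
          omega
        have b2 : isBad s a ch x (y + 1) = false := by
          refine deg_bad_false ?_
          intro k i _ _ h2 _
          omega
        rw [b1, b2]
        have key : Ok s M a ch (x + 1) (y + 1) (x + 1 - 1) (y + 1 - 1) := by
          rw [hy]; exact ok_left hx (by omega) hi hr
        exact key hv
      · have key := deg_ok_cell (s := s) (M := M) (a := a) (ch := ch) hk hj hi hr
        rw [← hx, ← hy] at key
        exact key hv
      · have b1 : isBad s a ch (x + 1) (y + 1) = false := by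
          refine deg_bad_false ?_
          intro k i _ _ h2 _
          omega
        have b2 : isBad s a ch x (y + 1) = false := by
          refine deg_bad_false ?_
          intro k i _ _ h2 _
          omega
        rw [b1, b2]
        have key : Ok s M a ch (x + 1) (y + 1) (x + 1 - 1) (y + 1 - 1) := by
          rw [hx, hy]; exact ok_right hi hr
        exact key hv
    · exact absurd hv (no_bot hy)

end Pool.Agent.Helper31.BC
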